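import Pool.Agent.H329R3.NU.Stmts
import Pool.Agent.H245R3.PMMix
import Pool.Agent.H595R3.PM_KInt

set_option autoImplicit false

open MeasureTheory Set Filter Topology

namespace Pool.Agent.H329R3.NU

open Pool.Agent.H329R3.PM Pool.Agent.H245R3.PMMix

theorem mixAbsP (a δ B : ℝ) (R : Set ℝ) (k k₁ k₂ : ℝ → ℝ → ℝ) (ha : a ∈ Ioo (0 : ℝ) 1)
    (hδ : 0 < δ) (hB : 0 < B) (hR : IsCompact R)
    (hk₁ : ContinuousOn (fun p : ℝ × ℝ => k₁ p.1 p.2) (R ×ˢ Icc a 1))
    (hk₂ : ∀ r ∈ R, 0 < r → IntegrableOn (k₂ r) (Ioc a 1) ∧ ∫ y in Ioc a 1, |k₂ r y| ≤ δ / (2 * B))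
    (hk : ∀ r ∈ R, 0 < r → ∀ y ∈ Ioc a 1, k r y = k₁ r y + k₂ r y) :
    ∃ η > 0, ∀ h : ℝ → ℝ, Measurable h → (∀ y, |h y| ≤ B) → (∀ y, y ∉ Icc a 1 → h y = 0) →
      (∀ y ∈ Icc a 1, |∫ ρ in Ioc a y, h ρ| ≤ η) → ∀ r ∈ R, 0 < r → |Sop k h r| ≤ δ := by
  have hcomp : IsCompact (R ×ˢ Icc a (1 : ℝ)) := hR.prod isCompact_Icc
  have huc := hcomp.uniformContinuousOn_of_continuous hk₁
  rw [Metric.uniformContinuousOn_iff] at huc
  obtain ⟨d, hd, huc'⟩ := huc (δ / (4 * B)) (by positivity)
  obtain ⟨M, hM⟩ := hcomp.exists_bound_of_continuousOn hk₁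
  have ha0 : 0 < a := ha.1
  have ha1 : a < 1 := ha.2
  obtain ⟨n₀, hn₀⟩ := exists_nat_gt ((1 - a) / d)
  set n : ℕ := n₀ + 1 with hn
  have hnR : (0 : ℝ) < n := by rw [hn]; positivity
  have hcell : (1 - a) / n < d := by
    rw [div_lt_iff₀ hnR]
    rw [div_lt_iff₀ hd] at hn₀
    have : (n₀ : ℝ) ≤ n := by rw [hn]; push_cast; linarith
    nlinarith
  set M' : ℝ := |M| + 1 with hM'
  have hM'0 : 0 < M' := by positivity
  refine ⟨δ / (8 * M' * n), by positivity, fun h hmeas hbd hsupp hprim r hr hr0 => ?_⟩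
  set η : ℝ := δ / (8 * M' * n) with hη
  have hη0 : 0 < η := by rw [hη]; positivity
  have hkc : ContinuousOn (k₁ r) (Icc a 1) := by
    have hc : ContinuousOn (fun y : ℝ => (r, y)) (Icc a 1) := by fun_prop
    exact hk₁.comp hc (fun y hy => ⟨hr, hy⟩)
  have hbdd : ∀ y, ‖h y‖ ≤ B := fun y => by
    rw [Real.norm_eq_abs]
    exact hbd y
  have hi1 : IntegrableOn (fun y => k₁ r y * h y) (Ioc a 1) :=
    Integrable.mul_bdd (c := B) ((hkc.integrableOn_Icc).mono_set Ioc_subset_Icc_self)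
      hmeas.aestronglyMeasurable (Filter.Eventually.of_forall hbdd)
  obtain ⟨hk2i, hk2b⟩ := hk₂ r hr hr0
  have hi2 : IntegrableOn (fun y => k₂ r y * h y) (Ioc a 1) :=
    Integrable.mul_bdd (c := B) hk2i
      hmeas.aestronglyMeasurable (Filter.Eventually.of_forall hbdd)
  have hih : IntegrableOn h (Ioc a 1) := by
    have : IntegrableOn (fun _ : ℝ => (1 : ℝ)) (Ioc a 1) := by
      simp
    have h3 := Integrable.mul_bdd (c := B) this
      hmeas.aestronglyMeasurable (Filter.Eventually.of_forall hbdd)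
    simp only [one_mul] at h3
    exact h3
  have hS : Sop k h r = (∫ y in Ioc a 1, k₁ r y * h y) + ∫ y in Ioc a 1, k₂ r y * h y := by
    unfold Sop
    have h1 : ∫ y in Ioc (0 : ℝ) 1, k r y * h y = ∫ y in Icc a 1, k r y * h y := by
      have h0 : ∫ y in Ioc (0 : ℝ) 1, k r y * h y = ∫ y in Icc (0 : ℝ) 1, k r y * h y :=
        integral_Icc_eq_integral_Ioc.symm
      rw [h0]
      refine setIntegral_eq_of_subset_of_forall_sdiff_eq_zero measurableSet_Icc
        (Icc_subset_Icc_left ha0.le) ?_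
      intro y hy
      rw [hsupp y hy.2, mul_zero]
    rw [h1, integral_Icc_eq_integral_Ioc, ← integral_add hi1 hi2]
    refine setIntegral_congr_fun measurableSet_Ioc ?_
    intro y hy
    change k r y * h y = k₁ r y * h y + k₂ r y * h y
    rw [hk r hr hr0 y hy]
    ring
  have hb2 : |∫ y in Ioc a 1, k₂ r y * h y| ≤ δ / 2 := by
    have h1 : |∫ y in Ioc a 1, k₂ r y * h y| ≤ ∫ y in Ioc a 1, |k₂ r y * h y| :=
      abs_integral_le_integral_abs
    have h2 : ∫ y in Ioc a 1, |k₂ r y * h y| ≤ ∫ y in Ioc a 1, |k₂ r y| * B := by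
      refine integral_mono hi2.abs (hk2i.abs.mul_const B) ?_
      intro y
      change |k₂ r y * h y| ≤ |k₂ r y| * B
      rw [abs_mul]
      exact mul_le_mul_of_nonneg_left (hbd y) (abs_nonneg _)
    rw [integral_mul_const] at h2
    refine h1.trans (h2.trans ?_)
    calc (∫ y in Ioc a 1, |k₂ r y|) * B ≤ δ / (2 * B) * B := by gcongr
      _ = δ / 2 := by field_simp
  -- cells
  obtain ⟨t, ht⟩ : ∃ t : ℕ → ℝ, t = fun i : ℕ => a + (1 - a) * (i : ℝ) / n := ⟨_, rfl⟩
  have ht0 : t 0 = a := by rw [ht]; simp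
  have htn : t n = 1 := by
    rw [ht]
    change a + (1 - a) * n / n = 1
    rw [mul_div_assoc, div_self hnR.ne']
    ring
  have htd : ∀ i, t (i + 1) - t i = (1 - a) / n := by
    intro i
    rw [ht]
    change a + (1 - a) * ((i + 1 : ℕ) : ℝ) / n - (a + (1 - a) * i / n) = (1 - a) / n
    push_cast
    ring
  have hd0 : 0 ≤ (1 - a) / n := div_nonneg (by linarith) hnR.le
  have hta : ∀ i, a ≤ t i := by
    intro i
    rw [ht]
    change a ≤ a + (1 - a) * i / n
    have : 0 ≤ (1 - a) * i / n := div_nonneg (mul_nonneg (by linarith) (Nat.cast_nonneg i)) hnR.le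
    linarith
  have ht1 : ∀ i, i ≤ n → t i ≤ 1 := by
    intro i hi
    have h1 : (i : ℝ) ≤ n := by exact_mod_cast hi
    have h2 : (1 - a) * i / n ≤ 1 - a := by
      rw [div_le_iff₀ hnR]
      exact mul_le_mul_of_nonneg_left h1 (by linarith)
    rw [ht]
    change a + (1 - a) * i / n ≤ 1
    linarith
  have hle : ∀ i, t i ≤ t (i + 1) := fun i => by linarith [htd i]
  have hsub : ∀ i, i < n → Ioc (t i) (t (i + 1)) ⊆ Ioc a 1 := fun i hi =>
    Ioc_subset_Ioc (hta i) (ht1 (i + 1) hi)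
  have hint : ∀ i < n, IntervalIntegrable (fun y => k₁ r y * h y) volume (t i) (t (i + 1)) := by
    intro i hi
    rw [intervalIntegrable_iff_integrableOn_Ioc_of_le (hle i)]
    exact hi1.mono_set (hsub i hi)
  have hinth : ∀ i < n, IntervalIntegrable h volume (t i) (t (i + 1)) := by
    intro i hi
    rw [intervalIntegrable_iff_integrableOn_Ioc_of_le (hle i)]
    exact hih.mono_set (hsub i hi)
  have hpr : ∀ i, i ≤ n → |∫ y in a..(t i), h y| ≤ η := by
    intro i hi
    rw [intervalIntegral.integral_of_le (hta i)]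
    exact hprim (t i) ⟨hta i, ht1 i hi⟩
  have hia : ∀ i, i ≤ n → IntervalIntegrable h volume a (t i) := by
    intro i hi
    rw [intervalIntegrable_iff_integrableOn_Ioc_of_le (hta i)]
    exact hih.mono_set (Ioc_subset_Ioc_right (ht1 i hi))
  have hsum : ∫ y in Ioc a 1, k₁ r y * h y =
      ∑ i ∈ Finset.range n, ∫ y in (t i)..(t (i + 1)), k₁ r y * h y := by
    rw [intervalIntegral.sum_integral_adjacent_intervals hint, ht0, htn,
      intervalIntegral.integral_of_le ha1.le]
  have hcellb : ∀ i ∈ Finset.range n, ‖∫ y in (t i)..(t (i + 1)), k₁ r y * h y‖ ≤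
      δ / 4 * ((1 - a) / n) + M' * (2 * η) := by
    intro i hi
    have hin := Finset.mem_range.1 hi
    have hz : |∫ y in (t i)..(t (i + 1)), h y| ≤ 2 * η := by
      have e1 := intervalIntegral.integral_add_adjacent_intervals (hia i hin.le) (hinth i hin)
      have e2 : ∫ y in (t i)..(t (i + 1)), h y =
          (∫ y in a..(t (i + 1)), h y) - ∫ y in a..(t i), h y := by linarith
      rw [e2]
      have h1 := hpr i hin.le
      have h2 := hpr (i + 1) hin
      refine (abs_sub _ _).trans ?_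
      linarith
    have heq : ∫ y in (t i)..(t (i + 1)), k₁ r y * h y =
        (∫ y in (t i)..(t (i + 1)), (k₁ r y * h y - k₁ r (t i) * h y)) +
          k₁ r (t i) * ∫ y in (t i)..(t (i + 1)), h y := by
      rw [intervalIntegral.integral_sub (hint i hin) ((hinth i hin).const_mul _),
        intervalIntegral.integral_const_mul]
      ring
    rw [heq]
    have hnb := intervalIntegral.norm_integral_le_of_norm_le_const (C := δ / 4)
      (a := t i) (b := t (i + 1)) (f := fun y => k₁ r y * h y - k₁ r (t i) * h y) ?_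
    · rw [htd i, abs_of_nonneg hd0] at hnb
      have h5 : ‖k₁ r (t i)‖ ≤ M' := by
        have := hM (r, t i) ⟨hr, hta i, ht1 i hin.le⟩
        simp only at this
        rw [hM']
        linarith [le_abs_self M]
      refine (norm_add_le _ _).trans (add_le_add hnb ?_)
      rw [norm_mul, Real.norm_eq_abs (∫ y in (t i)..(t (i + 1)), h y)]
      exact mul_le_mul h5 hz (abs_nonneg _) hM'0.le
    · intro y hy
      rw [Set.uIoc_of_le (hle i)] at hy
      have hy1 := hsub i hin hy
      change ‖k₁ r y * h y - k₁ r (t i) * h y‖ ≤ δ / 4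
      rw [← sub_mul, norm_mul]
      have hdist : dist (k₁ r y) (k₁ r (t i)) < δ / (4 * B) := by
        refine huc' (r, y) ⟨hr, hy1.1.le, hy1.2⟩ (r, t i) ⟨hr, hta i, ht1 i hin.le⟩ ?_
        rw [Prod.dist_eq]
        simp only [dist_self]
        rw [max_lt_iff]
        refine ⟨hd, ?_⟩
        rw [Real.dist_eq, abs_of_nonneg (by linarith [hy.1])]
        have := htd i
        linarith [hy.2]
      rw [dist_eq_norm] at hdist
      calc ‖k₁ r y - k₁ r (t i)‖ * ‖h y‖ ≤ δ / (4 * B) * B :=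
            mul_le_mul hdist.le (hbdd y) (norm_nonneg _) (by positivity)
        _ = δ / 4 := by field_simp
  have hb1 : |∫ y in Ioc a 1, k₁ r y * h y| ≤ δ / 2 := by
    rw [hsum, ← Real.norm_eq_abs]
    refine (norm_sum_le _ _).trans ((Finset.sum_le_sum hcellb).trans ?_)
    rw [Finset.sum_const, Finset.card_range, nsmul_eq_mul]
    have h7 : (n : ℝ) * (δ / 4 * ((1 - a) / n) + M' * (2 * η)) = δ / 4 * (1 - a) + δ / 4 := by
      rw [hη]
      field_simp
      ring
    rw [h7]
    have : δ / 4 * (1 - a) ≤ δ / 4 * 1 := mul_le_mul_of_nonneg_left (by linarith) (by positivity)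
    linarith
  rw [hS]
  calc |(∫ y in Ioc a 1, k₁ r y * h y) + ∫ y in Ioc a 1, k₂ r y * h y| ≤ δ / 2 + δ / 2 :=
        (abs_add_le _ _).trans (add_le_add hb1 hb2)
    _ = δ := by ring

theorem mixPrim_all : MixPrim := by
  intro a ha δ hδ B hB
  obtain ⟨-, hsg, -⟩ := Pool.Agent.H595R3.PMKInt.taskKInt
  have ha0 : 0 < a := ha.1
  have ha1 : a < 1 := ha.2
  obtain ⟨η₁, hη₁, h₁⟩ := mixAbsP a δ B (Icc 0 (a / 2)) kk
    (fun r y => -2 * y / (√(r + y) * √(y - r) * (√(r + y) + √(y - r)) ^ 3)) (fun _ _ => 0)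
    ha hδ hB isCompact_Icc (cont1 ha0)
    (by
      intro r _ _
      refine ⟨integrableOn_zero, ?_⟩
      simp
      positivity)
    (by
      intro r hr hr0 y hy
      rw [add_zero]
      exact kk_small ha0 hr0 hr.2 hy.1)
  have hF : Integrable (indicator (Ico (-1) 1) sg) := by
    rw [integrable_indicator_iff measurableSet_Ico]
    have h0 := sg_int hsg 0
    have h1 := sg_int hsg 1
    have : Ico (-1 : ℝ) 1 = Ico (0 - 1) 0 ∪ Ico (1 - 1) 1 := by
      ext x
      simp only [mem_Ico, mem_union]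
      constructor
      · rintro ⟨h2, h3⟩
        rcases lt_or_ge x 0 with h | h
        · left; exact ⟨by linarith, h⟩
        · right; exact ⟨by linarith, h3⟩
      · rintro (⟨h2, h3⟩ | ⟨h2, h3⟩)
        · exact ⟨by linarith, by linarith⟩
        · exact ⟨by linarith, by linarith⟩
    rw [this]
    exact h0.union h1
  obtain ⟨g, -, hgle, hgc, hgi⟩ := hF.exists_hasCompactSupport_integral_sub_le
    (ε := a ^ 2 * δ / (4 * B)) (by positivity)
  set F := indicator (Ico (-1 : ℝ) 1) sg with hFdef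
  have hFeq : ∀ r ∈ Icc (a / 2) 1, ∀ y ∈ Ioc a 1, F (r - y) = sg (r - y) := by
    intro r hr y hy
    rw [hFdef, indicator_of_mem]
    exact ⟨by linarith [hr.1, hy.2], by linarith [hr.2, hy.1]⟩
  have hint : ∀ r : ℝ, Integrable (fun y => F (r - y) - g (r - y)) := by
    intro r
    exact (hF.sub hgi).comp_sub_left r
  obtain ⟨η₂, hη₂, h₂⟩ := mixAbsP a δ B (Icc (a / 2) 1) kk
    (fun r y => y * (√(r + y) - √|r - y| - r / 2 * (1 / √(r + y) - g (r - y))) / r ^ 3)
    (fun r y => (y / (2 * r ^ 2)) * (sg (r - y) - g (r - y)))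
    ha hδ hB isCompact_Icc (cont2 ha0 g hgc)
    (by
      intro r hr hr0
      have hI : IntegrableOn (fun y => F (r - y) - g (r - y)) (Icc a 1) := (hint r).integrableOn
      have hI2 : IntegrableOn (fun y => (y / (2 * r ^ 2)) * (F (r - y) - g (r - y))) (Icc a 1) :=
        hI.continuousOn_mul (by fun_prop) isCompact_Icc
      have hI3 : IntegrableOn (fun y => (y / (2 * r ^ 2)) * (F (r - y) - g (r - y))) (Ioc a 1) :=
        hI2.mono_set Ioc_subset_Icc_self
      have hcongr : EqOn (fun y => (y / (2 * r ^ 2)) * (F (r - y) - g (r - y)))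
          (fun y => (y / (2 * r ^ 2)) * (sg (r - y) - g (r - y))) (Ioc a 1) := by
        intro y hy
        simp only
        rw [hFeq r hr y hy]
      refine ⟨hI3.congr_fun hcongr measurableSet_Ioc, ?_⟩
      have e1 : ∫ y in Ioc a 1, |(y / (2 * r ^ 2)) * (sg (r - y) - g (r - y))| =
          ∫ y in Ioc a 1, |(y / (2 * r ^ 2)) * (F (r - y) - g (r - y))| := by
        apply setIntegral_congr_fun measurableSet_Ioc
        intro y hy
        simp only
        rw [hFeq r hr y hy]
      rw [e1]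
      have hc : ∀ y ∈ Ioc a 1, |(y / (2 * r ^ 2)) * (F (r - y) - g (r - y))| ≤
          2 / a ^ 2 * ‖F (r - y) - g (r - y)‖ := by
        intro y hy
        rw [abs_mul, Real.norm_eq_abs]
        apply mul_le_mul_of_nonneg_right _ (abs_nonneg _)
        have hy0 : 0 < y := ha0.trans hy.1
        rw [abs_of_nonneg (by positivity), div_le_div_iff₀ (by positivity) (by positivity)]
        have h3 : a / 2 ≤ r := hr.1
        have h4 : y ≤ 1 := hy.2
        nlinarith [mul_self_nonneg (r - a / 2), mul_nonneg ha0.le (sub_nonneg.2 h3)]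
      calc ∫ y in Ioc a 1, |(y / (2 * r ^ 2)) * (F (r - y) - g (r - y))|
          ≤ ∫ y in Ioc a 1, 2 / a ^ 2 * ‖F (r - y) - g (r - y)‖ := by
            apply setIntegral_mono_on hI3.abs ((hint r).norm.const_mul _).integrableOn
              measurableSet_Ioc hc
        _ ≤ ∫ y, 2 / a ^ 2 * ‖F (r - y) - g (r - y)‖ := by
            apply setIntegral_le_integral ((hint r).norm.const_mul _)
            filter_upwards with y
            positivity
        _ = 2 / a ^ 2 * ∫ z, ‖F z - g z‖ := by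
            rw [integral_const_mul, integral_sub_left_eq_self (fun z => ‖F z - g z‖)]
        _ ≤ 2 / a ^ 2 * (a ^ 2 * δ / (4 * B)) := by
            apply mul_le_mul_of_nonneg_left hgle (by positivity)
        _ = δ / (2 * B) := by
            field_simp
            ring)
    (by
      intro r hr hr0 y hy
      unfold kk kap
      field_simp
      ring)
  refine ⟨min η₁ η₂, lt_min hη₁ hη₂, ?_⟩
  intro h hm hb hs hp r hr
  rcases le_or_gt r (a / 2) with hra | hra
  · exact h₁ h hm hb hs (fun y hy => (hp y hy).trans (min_le_left _ _)) r ⟨hr.1.le, hra⟩ hr.1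
  · exact h₂ h hm hb hs (fun y hy => (hp y hy).trans (min_le_right _ _)) r ⟨hra.le, hr.2⟩ hr.1

end Pool.Agent.H329R3.NU
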