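import Pool.Agent.H329R3.NU.Final
import Pool.Agent.H30R3.PMOne
import Pool.Agent.H595R3.PM_KInt

open MeasureTheory Set Filter Topology

namespace Pool.Agent.H329R3.NU

open Pool.Agent.H329R3.PM

theorem dy_zero (z : ℝ × ℝ) : dy (fun _ => 0) z = 0 := by
  unfold dy; simp

theorem dt_zero (z : ℝ × ℝ) : dt (fun _ => 0) z = 0 := by
  unfold dt; simp

theorem zero_all : Zero := by
  intro κ h0 h1 h2
  have hA := AA_pos
  have hone := Pool.Agent.H30R3.PMOne.taskOne Pool.Agent.H595R3.PMKInt.taskKInt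
  have hW : ∀ z, W (fun _ => 0) z = 1 := by
    intro z; unfold W; rw [dy_zero]; simp
  have hF : ∀ z, Fl κ (fun _ => 0) z = κ := by
    intro z; unfold Fl; rw [dt_zero, hW]; simp
  have hT : ∀ z ∈ Qc, 2 * κ ≤ Th AA κ (fun _ => 0) z := by
    intro z hz
    unfold Th Sth Sop
    have e1 : ∫ y in Ioc (0 : ℝ) 1, kk z.1 y * W (fun _ => 0) (y, z.2) =
        ∫ y in Ioc (0 : ℝ) 1, kk z.1 y := by
      refine integral_congr_ae (Eventually.of_forall fun y => ?_)
      simp only [hW, mul_one]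
    rw [e1]
    have h3 := (hone z.1 hz.1).1
    have h4 : (4 : ℝ) / 5 ≤ Real.exp (-2 * κ * z.2) := by
      have h5 : -2 * κ * z.2 ≥ -(1 / 5) := by
        have h6 : 0 ≤ z.2 := hz.2.1
        have h7 : z.2 ≤ 1 := hz.2.2
        nlinarith
      have h8 := Real.add_one_le_exp (-2 * κ * z.2)
      linarith
    have h9 : AA * (4 / 5 / 2) * (3 / 10) ≤
        AA * (Real.exp (-2 * κ * z.2) / 2) * ∫ y in Ioc (0 : ℝ) 1, kk z.1 y := by
      gcongr
    linarith
  refine ⟨contDiff_const, HasCompactSupport.zero, ?_, min κ (1 / 2), lt_min h0 (by norm_num), ?_⟩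
  · have : tsupport (fun _ : ℝ × ℝ => (0 : ℝ)) = ∅ := by simp
    rw [this]; exact empty_subset _
  · intro z hz
    rw [hW, hF]
    have h5 := hT z hz
    have h6 : min κ (1 / 2) ≤ κ := min_le_left _ _
    have h7 : min κ (1 / 2) ≤ 1 / 2 := min_le_right _ _
    refine ⟨by linarith, h6, by linarith, ?_⟩
    have h8 : (2 * κ) ^ 2 ≤ Th AA κ (fun _ => 0) z ^ 2 := by gcongr
    have h9 : (1 / 2 : ℝ) ≤ 1 - min κ (1 / 2) := by linarith
    calc κ ^ 2 ≤ (1 / 2) * ((2 * κ) ^ 2 * 1) := by nlinarith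
      _ ≤ (1 - min κ (1 / 2)) * (Th AA κ (fun _ => 0) z ^ 2 * 1) := by gcongr

end Pool.Agent.H329R3.NU
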