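import Pool.Agent.H329R3.NU.All0
import Pool.Agent.H329R3.NU.ZeroT
import Pool.Agent.H329R3.NU.MixP
import Pool.Agent.H557R3.NU_Weak3
import Pool.Agent.H992R3.NU.CoreT

open MeasureTheory Set Filter Topology

namespace Pool.Agent.H329R3.NU

theorem core_all : Core := core_all0 mixPrim_all Pool.Agent.H992R3.NU.taskCore

theorem weak3_all : Weak3 := weak3_all0 Pool.Agent.H557R3.NUWeak3.taskWeak3

end Pool.Agent.H329R3.NU
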