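import Pool.Agent.H329R3.NU.Stmts

open MeasureTheory Set Filter Topology
open scoped RealInnerProductSpace ENNReal

namespace Pool.Agent.H329R3.NU

theorem limL2_seq (J η : ℕ → ℝ) (M : ℝ) (h0 : ∀ k, 0 ≤ J k) (hM : ∀ k, J k ≤ M)
    (hη : Tendsto η atTop (𝓝 0)) (h : ∀ k l, k ≤ l → J k ≤ J l + 2 * η k) :
    ∃ c : ℝ, Tendsto J atTop (𝓝 c) := by
  obtain ⟨c, -, ψ, hψ, hc⟩ := tendsto_subseq_of_bounded (x := J) (s := Icc 0 M)
    (Metric.isBounded_Icc 0 M) (fun k => ⟨h0 k, hM k⟩)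
  refine ⟨c, ?_⟩
  rw [Metric.tendsto_atTop]
  intro ε hε
  obtain ⟨K, hK⟩ := Metric.tendsto_atTop.1 hη (ε / 8) (by positivity)
  obtain ⟨j0, hj0⟩ := Metric.tendsto_atTop.1 hc (ε / 8) (by positivity)
  have hηK : ∀ k, K ≤ k → η k ≤ ε / 8 := by
    intro k hk
    have h1 := hK k hk
    rw [Real.dist_eq, sub_zero] at h1
    exact (le_abs_self _).trans h1.le
  have hup : ∀ k, K ≤ k → J k ≤ c + 2 * (ε / 8) := by
    intro k hk
    refine ge_of_tendsto (hc.add_const (2 * (ε / 8))) ?_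
    filter_upwards [eventually_ge_atTop k] with j hj
    have h1 := h k (ψ j) (hj.trans (hψ.id_le j))
    have h2 := hηK k hk
    simp only [Function.comp_apply]
    linarith
  refine ⟨ψ (max j0 K), fun k hk => ?_⟩
  have hψK : K ≤ ψ (max j0 K) := (le_max_right _ _).trans (hψ.id_le _)
  have h1 := hup k (hψK.trans hk)
  have h2 := h _ k hk
  have h3 := hηK _ hψK
  have h4 := hj0 (max j0 K) (le_max_left _ _)
  rw [Real.dist_eq, abs_lt] at h4
  simp only [Function.comp_apply] at h4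
  rw [Real.dist_eq, abs_lt]
  constructor <;> linarith [h4.1, h4.2]

theorem limL2_aux : LimL2 := by
  intro μ _ w B η hmeas hB hη horth
  have hmem : ∀ k, MemLp (w k) 2 μ := fun k =>
    MemLp.of_bound (hmeas k).aestronglyMeasurable B (by
      filter_upwards [hB k] with z hz
      rwa [Real.norm_eq_abs])
  have hint2 : ∀ k l, Integrable (fun z => w k z * w l z) μ := by
    intro k l
    exact (hmem k).integrable_mul (hmem l)
  have hkey : ∀ k l, ∫ z, (w l z - w k z) ^ 2 ∂μ =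
      (∫ z, w l z ^ 2 ∂μ) - (∫ z, w k z ^ 2 ∂μ) - 2 * ∫ z, (w l z - w k z) * w k z ∂μ := by
    intro k l
    have e1 : ∀ z, (w l z - w k z) ^ 2 = w l z * w l z - 2 * (w l z * w k z) + w k z * w k z := by
      intro z; ring
    have e2 : ∀ z, (w l z - w k z) * w k z = w l z * w k z - w k z * w k z := by
      intro z; ring
    have e3 : ∀ m z, w m z ^ 2 = w m z * w m z := by
      intro m z; ring
    simp_rw [e1, e2, e3]
    have hs : Integrable (fun z => w l z * w l z - 2 * (w l z * w k z)) μ :=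
      (hint2 l l).sub ((hint2 l k).const_mul 2)
    rw [integral_add hs (hint2 k k),
      integral_sub (hint2 l l) ((hint2 l k).const_mul 2), integral_sub (hint2 l k) (hint2 k k),
      integral_const_mul]
    ring
  set J : ℕ → ℝ := fun k => ∫ z, w k z ^ 2 ∂μ with hJ
  have hle : ∀ k l, k ≤ l → ∫ z, (w l z - w k z) ^ 2 ∂μ ≤ J l - J k + 2 * η k := by
    intro k l hkl
    have h1 := hkey k l
    have h2 := horth k l hkl
    simp only [hJ]
    linarith
  have hnn : ∀ k l, 0 ≤ ∫ z, (w l z - w k z) ^ 2 ∂μ := fun k l =>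
    integral_nonneg fun z => sq_nonneg _
  have hJ0 : ∀ k, 0 ≤ J k := fun k => integral_nonneg fun z => sq_nonneg _
  have hJM : ∀ k, J k ≤ ∫ _z, B ^ 2 ∂μ := by
    intro k
    refine integral_mono_ae ?_ (integrable_const _) ?_
    · simpa [pow_two] using hint2 k k
    · filter_upwards [hB k] with z hz
      have := abs_le.1 hz
      have hB0 : 0 ≤ B := (abs_nonneg _).trans hz
      exact sq_le_sq' this.1 this.2
  obtain ⟨c, hc⟩ := limL2_seq J η _ hJ0 hJM hη (fun k l hkl => by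
    have h1 := hle k l hkl
    have h2 := hnn k l
    linarith)
  refine ⟨⟨c, hc⟩, ?_⟩
  set f : ℕ → Lp ℝ 2 μ := fun k => (hmem k).toLp (w k) with hf
  have hnorm : ∀ k l, ‖f l - f k‖ ^ 2 = ∫ z, (w l z - w k z) ^ 2 ∂μ := by
    intro k l
    have e1 : f l - f k = ((hmem l).sub (hmem k)).toLp (w l - w k) :=
      (MemLp.toLp_sub (hmem l) (hmem k)).symm
    rw [e1, ← real_inner_self_eq_norm_sq, L2.inner_def]
    refine integral_congr_ae ?_
    filter_upwards [((hmem l).sub (hmem k)).coeFn_toLp] with z hz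
    rw [hz]
    simp only [Pi.sub_apply, real_inner_self_eq_norm_sq, Real.norm_eq_abs, sq_abs]
  have hcau : CauchySeq f := by
    rw [Metric.cauchySeq_iff']
    intro ε hε
    obtain ⟨K1, hK1⟩ := Metric.tendsto_atTop.1 hη (ε ^ 2 / 8) (by positivity)
    obtain ⟨K2, hK2⟩ := Metric.tendsto_atTop.1 hc (ε ^ 2 / 8) (by positivity)
    refine ⟨max K1 K2, fun n hn => ?_⟩
    set N := max K1 K2 with hN
    have h1 := hle N n hn
    have h2 := hK1 N (le_max_left _ _)
    have h3 := hK2 N (le_max_right _ _)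
    have h4 := hK2 n ((le_max_right _ _).trans hn)
    rw [Real.dist_eq, abs_lt] at h2 h3 h4
    have h5 := hnorm N n
    rw [dist_eq_norm]
    have h6 : ‖f n - f N‖ ^ 2 < ε ^ 2 := by
      rw [h5]
      have : 0 < ε ^ 2 := by positivity
      linarith [h2.1, h2.2, h3.1, h3.2, h4.1, h4.2]
    exact lt_of_pow_lt_pow_left₀ 2 hε.le h6
  obtain ⟨F, hF⟩ := cauchySeq_tendsto_of_complete hcau
  have hTM : TendstoInMeasure μ (fun n => (f n : ℝ × ℝ → ℝ)) atTop F :=
    tendstoInMeasure_of_tendsto_Lp hF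
  obtain ⟨φ, hφ, hae⟩ := hTM.exists_seq_tendsto_ae
  refine ⟨φ, F, hφ, (Lp.stronglyMeasurable F).measurable, ?_⟩
  have hall : ∀ᵐ z ∂μ, ∀ k, (f k : ℝ × ℝ → ℝ) z = w k z :=
    ae_all_iff.2 fun k => (hmem k).coeFn_toLp
  filter_upwards [hae, hall] with z hz hz2
  simpa only [hz2] using hz

theorem taskLimL2 : TaskLimL2 := limL2_aux

end Pool.Agent.H329R3.NU
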