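import Pool.Agent.H329R3.NU.Stmts

/-!
Task SelS of project H329-NU: smooth approximation from below.
-/

set_option autoImplicit false

open MeasureTheory Set Filter Topology
open scoped Manifold ContDiff

namespace Pool.Agent.H329R3.NU

theorem isOpen_Om : IsOpen Om := isOpen_Ioo.prod isOpen_Ioo

theorem taskSelS : TaskSelS := by
  intro α hα hα0 ε hε K hK hKO
  obtain ⟨k, hkc, hKk, hkO⟩ := exists_compact_between hK isOpen_Om hKO
  obtain ⟨χ, hχK, hχ0, hχc, hχ01⟩ := exists_continuous_one_zero_of_isCompact hK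
    (isOpen_interior (s := k)).isClosed_compl (disjoint_compl_right_iff_subset.mpr hKk)
  have hχs : tsupport χ ⊆ Om := by
    refine subset_trans ?_ hkO
    refine closure_minimal ?_ hkc.isClosed
    intro z hz
    by_contra h
    exact hz (hχ0 (fun h' => h (interior_subset h')))
  have hα0' : ∀ z, z ∈ Om → 0 ≤ α z := hα0
  let β : ℝ × ℝ → ℝ := fun z => α z * χ z
  have hβs : tsupport β ⊆ tsupport χ := by
    refine closure_mono ?_
    intro z hz
    rw [Function.mem_support] at hz ⊢
    intro h
    exact hz (by simp only [β, h, mul_zero])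
  have hχOut : ∀ z, z ∉ Om → χ z = 0 := by
    intro z hz
    by_contra h
    exact hz (hχs (subset_closure h))
  have hβ0 : ∀ z, 0 ≤ β z := by
    intro z
    by_cases hz : z ∈ Om
    · exact mul_nonneg (hα0' z hz) (hχ01 z).1
    · simp only [β, hχOut z hz, mul_zero, le_refl]
  have hβc : Continuous β := by
    refine continuous_of_tsupport fun x hx => ?_
    have hxO : x ∈ Om := hχs (hβs hx)
    exact (hα.continuousAt (isOpen_Om.mem_nhds hxO)).mul χ.continuous.continuousAt
  obtain ⟨g, hg⟩ := exists_contMDiffMap_forall_mem_convex_of_local_const (n := (2 : ℕ∞))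
    (I := 𝓘(ℝ, ℝ × ℝ)) (M := ℝ × ℝ) (F := ℝ) (t := fun z => Icc (max 0 (β z - ε)) (β z))
    (fun z => convex_Icc _ _) (by
      intro x
      refine ⟨max 0 (β x - ε / 2), ?_⟩
      have h1 : ∀ᶠ y in 𝓝 x, β y - ε < β x - ε / 2 := by
        have : Tendsto (fun y => β y - ε) (𝓝 x) (𝓝 (β x - ε)) :=
          (hβc.tendsto x).sub_const ε
        exact this.eventually_lt_const (by linarith)
      have h2 : ∀ᶠ y in 𝓝 x, β x - ε / 2 < β y :=
        (hβc.tendsto x).eventually_const_lt (by linarith)
      filter_upwards [h1, h2] with y hy1 hy2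
      refine ⟨max_le_max le_rfl hy1.le, max_le (hβ0 y) hy2.le⟩)
  have hgm : ContMDiff 𝓘(ℝ, ℝ × ℝ) 𝓘(ℝ, ℝ) (2 : ℕ∞) g := g.contMDiff
  have hgz : ∀ z, β z = 0 → g z = 0 := by
    intro z hz
    have h := hg z
    simp only [hz] at h
    exact le_antisymm h.2 ((le_max_left _ _).trans h.1)
  have hgs : tsupport g ⊆ tsupport χ := by
    refine closure_mono ?_
    intro z hz
    rw [Function.mem_support] at hz ⊢
    intro h
    exact hz (hgz z (by simp only [β, h, mul_zero]))
  refine ⟨g, ?_, ?_, hgs.trans hχs, ?_, ?_, ?_⟩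
  · exact hgm.contDiff
  · exact hχc.of_isClosed_subset (isClosed_tsupport _) hgs
  · intro z
    exact (le_max_left _ _).trans (hg z).1
  · intro z hz
    have h1 : g z ≤ β z := (hg z).2
    have h2 : β z ≤ α z := by
      have h3 := (hχ01 z).2
      have h4 := hα0' z hz
      simp only [β]
      nlinarith
    linarith
  · intro z hz
    have h1 : β z - ε ≤ g z := (le_max_right _ _).trans (hg z).1
    have h2 : χ z = 1 := hχK hz
    have h3 : β z = α z := by simp only [β, h2, mul_one]
    linarith

end Pool.Agent.H329R3.NU
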