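import Pool.Agent.H329R3.NU.Stmts
import Pool.Agent.H329R3.PM.TaskRad
import Pool.Agent.H595R3.PM_KInt

set_option autoImplicit false

open MeasureTheory Set Filter Topology
open scoped RealInnerProductSpace

namespace Pool.Agent.H329R3.NU

open Pool.Agent.H329R3.PM

namespace TB

theorem meas_uu {κ : ℝ} {w : ℝ × ℝ → ℝ} (hw : Measurable w) : Measurable (uu κ w) := by
  unfold uu
  refine Measurable.mul (by fun_prop) (hw.comp ?_)
  fun_prop

/-- integrability of the truncated kernel -/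
theorem int_ker : Integrable (fun y : E 3 => ‖y‖ ^ (-(3 / 2) : ℝ) *
    (Ioc (0 : ℝ) 1).indicator (fun _ => (1 : ℝ)) ‖y‖) := by
  have hP : Prof ((Ioc (0 : ℝ) 1).indicator (fun _ => (1 : ℝ))) := by
    refine ⟨measurable_const.indicator measurableSet_Ioc, ?_, ⟨1, ?_⟩, ?_⟩
    · intro y
      exact indicator_nonneg (fun _ _ => zero_le_one) y
    · intro y
      exact indicator_le_self' (fun _ _ => zero_le_one) y
    · intro y hy
      exact indicator_of_notMem hy _
  have h := (TRad.t _ hP 0).1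
  simpa using h

theorem ae_ne_zero (x : E 3) : ∀ᵐ y : E 3, y ≠ x := by
  have : (volume : Measure (E 3)) {x} = 0 := measure_singleton x
  rw [ae_iff]
  simpa using this

/-- bound for the kernel integral -/
theorem pot_bound {κ B : ℝ} {w : ℝ × ℝ → ℝ} (hκ : 0 < κ) (hw : Measurable w)
    (h0 : ∀ z, 0 ≤ w z) (hB : ∀ z, w z ≤ B)
    (hs : ∀ z : ℝ × ℝ, z.1 ∉ Ioc (0 : ℝ) 1 → w z = 0) (p : E 3 × ℝ) (hp : 0 ≤ p.2) :
    |∫ y : E 3, ‖p.1 - y‖ ^ (-(3 / 2) : ℝ) * uu κ w (y, p.2)| ≤
      B * (∫ y : E 3, ‖y‖ ^ (-(3 / 2) : ℝ) * (Ioc (0 : ℝ) 1).indicator (fun _ => (1 : ℝ)) ‖y‖) +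
      B * (volume : Measure (E 3)).real (Metric.closedBall 0 1) := by
  obtain ⟨x, t⟩ := p
  simp only at hp ⊢
  have hB0 : 0 ≤ B := (h0 (0, 0)).trans (hB (0, 0))
  set R : ℝ := Real.exp (κ * t) with hR
  have hRpos : 0 < R := Real.exp_pos _
  have hRinv : Real.exp (-κ * t) * R = 1 := by
    rw [hR, ← Real.exp_add]
    simp
  have hR3 : Real.exp (-3 * κ * t) * R ^ 3 = 1 := by
    rw [hR, ← Real.exp_nat_mul, ← Real.exp_add]
    simp only [Nat.cast_ofNat]
    rw [show -3 * κ * t + 3 * (κ * t) = 0 by ring, Real.exp_zero]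
  have hnn : ∀ y : E 3, 0 ≤ ‖x - y‖ ^ (-(3 / 2) : ℝ) * uu κ w (y, t) := by
    intro y
    refine mul_nonneg (Real.rpow_nonneg (norm_nonneg _) _) ?_
    exact mul_nonneg (Real.exp_pos _).le (h0 _)
  rw [abs_of_nonneg (integral_nonneg hnn)]
  set g : E 3 → ℝ := fun y => ‖y‖ ^ (-(3 / 2) : ℝ) *
    (Ioc (0 : ℝ) 1).indicator (fun _ => (1 : ℝ)) ‖y‖ with hg
  have hgi : Integrable g := int_ker
  have hgx : Integrable (fun y => g (x - y)) := hgi.comp_sub_left x
  have hball : Integrable ((Metric.closedBall (0 : E 3) R).indicator (fun _ => (1 : ℝ))) := by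
    refine (integrable_indicator_iff Metric.isClosed_closedBall.measurableSet).2 ?_
    exact integrableOn_const (measure_closedBall_lt_top.ne)
  have hle : ∀ᵐ y : E 3, ‖x - y‖ ^ (-(3 / 2) : ℝ) * uu κ w (y, t) ≤ B * g (x - y) +
      B * Real.exp (-3 * κ * t) * (Metric.closedBall (0 : E 3) R).indicator (fun _ => (1 : ℝ)) y := by
    filter_upwards [ae_ne_zero x] with y hy
    have hpos : 0 < ‖x - y‖ := norm_pos_iff.2 (sub_ne_zero.2 (Ne.symm hy))
    have he1 : Real.exp (-3 * κ * t) ≤ 1 := by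
      rw [Real.exp_le_one_iff]
      nlinarith [mul_nonneg hκ.le hp]
    have hu1 : uu κ w (y, t) ≤ B := by
      show Real.exp (-3 * κ * t) * w (‖y‖ * Real.exp (-κ * t), t) ≤ B
      calc Real.exp (-3 * κ * t) * w (‖y‖ * Real.exp (-κ * t), t) ≤ 1 * B :=
            mul_le_mul he1 (hB _) (h0 _) zero_le_one
        _ = B := one_mul B
    have hu2 : uu κ w (y, t) ≤ B * Real.exp (-3 * κ * t) *
        (Metric.closedBall (0 : E 3) R).indicator (fun _ => (1 : ℝ)) y := by
      show Real.exp (-3 * κ * t) * w (‖y‖ * Real.exp (-κ * t), t) ≤ _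
      by_cases hyR : y ∈ Metric.closedBall (0 : E 3) R
      · rw [indicator_of_mem hyR, mul_one, mul_comm B]
        exact mul_le_mul_of_nonneg_left (hB _) (Real.exp_pos _).le
      · rw [indicator_of_notMem hyR, mul_zero]
        rw [hs (‖y‖ * Real.exp (-κ * t), t), mul_zero]
        rintro ⟨_, h2⟩
        simp only at h2
        apply hyR
        rw [mem_closedBall_zero_iff]
        calc ‖y‖ = ‖y‖ * (Real.exp (-κ * t) * R) := by rw [hRinv, mul_one]
          _ = (‖y‖ * Real.exp (-κ * t)) * R := by ring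
          _ ≤ 1 * R := mul_le_mul_of_nonneg_right h2 hRpos.le
          _ = R := one_mul R
    have hu0 : 0 ≤ uu κ w (y, t) := mul_nonneg (Real.exp_pos _).le (h0 _)
    have hi0 : 0 ≤ B * Real.exp (-3 * κ * t) *
        (Metric.closedBall (0 : E 3) R).indicator (fun _ => (1 : ℝ)) y :=
      hu0.trans hu2
    by_cases h1 : ‖x - y‖ ≤ 1
    · have hgv : g (x - y) = ‖x - y‖ ^ (-(3 / 2) : ℝ) := by
        rw [hg]
        simp only
        rw [indicator_of_mem (show ‖x - y‖ ∈ Ioc (0 : ℝ) 1 from ⟨hpos, h1⟩), mul_one]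
      rw [hgv]
      have := mul_le_mul_of_nonneg_left hu1 (Real.rpow_nonneg (norm_nonneg (x - y)) (-(3 / 2)))
      linarith
    · have hgv : g (x - y) = 0 := by
        rw [hg]
        simp only
        rw [indicator_of_notMem (fun h => h1 h.2), mul_zero]
      rw [hgv, mul_zero, zero_add]
      push Not at h1
      have h3 : ‖x - y‖ ^ (-(3 / 2) : ℝ) ≤ 1 :=
        Real.rpow_le_one_of_one_le_of_nonpos h1.le (by norm_num)
      calc ‖x - y‖ ^ (-(3 / 2) : ℝ) * uu κ w (y, t) ≤ 1 * uu κ w (y, t) :=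
            mul_le_mul_of_nonneg_right h3 hu0
        _ = uu κ w (y, t) := one_mul _
        _ ≤ _ := hu2
  refine (integral_mono_of_nonneg (Eventually.of_forall hnn) ?_ hle).trans ?_
  · exact (hgx.const_mul B).add (hball.const_mul _)
  · rw [integral_add (hgx.const_mul B) (hball.const_mul _), integral_const_mul,
      integral_const_mul, integral_sub_left_eq_self g volume x]
    refine add_le_add le_rfl ?_
    rw [integral_indicator Metric.isClosed_closedBall.measurableSet]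
    simp only [integral_const, smul_eq_mul, mul_one, measureReal_restrict_apply_univ]
    have hvol : (volume : Measure (E 3)).real (Metric.closedBall 0 R) =
        R ^ 3 * (volume : Measure (E 3)).real (Metric.closedBall 0 1) := by
      rw [Measure.addHaar_real_closedBall _ _ hRpos.le, Measure.addHaar_real_closedBall _ _ zero_le_one]
      simp [finrank_euclideanSpace]
    rw [hvol]
    have : B * Real.exp (-3 * κ * t) * (R ^ 3 * (volume : Measure (E 3)).real (Metric.closedBall 0 1))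
        = B * (Real.exp (-3 * κ * t) * R ^ 3) *
          (volume : Measure (E 3)).real (Metric.closedBall 0 1) := by ring
    rw [this, hR3, mul_one]

theorem meas_pot {κ : ℝ} {w : ℝ × ℝ → ℝ} (hw : Measurable w) :
    Measurable (fun p : E 3 × ℝ => ∫ y : E 3, ‖p.1 - y‖ ^ (-(3 / 2) : ℝ) * uu κ w (y, p.2)) := by
  have hm : Measurable (fun q : (E 3 × ℝ) × E 3 =>
      ‖q.1.1 - q.2‖ ^ (-(3 / 2) : ℝ) * uu κ w (q.2, q.1.2)) := by
    refine Measurable.mul (Measurable.pow_const (by fun_prop) _) ((meas_uu hw).comp ?_)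
    fun_prop
  exact (hm.stronglyMeasurable.integral_prod_right' (ν := (volume : Measure (E 3)))).measurable

theorem meas_sop {w : ℝ × ℝ → ℝ} (hw : Measurable w) :
    Measurable (fun q : ℝ × ℝ => Sop kk (fun ρ => w (ρ, q.2)) q.1) := by
  have hk : Measurable (fun p : ℝ × ℝ => kk p.1 p.2) := Pool.Agent.H595R3.PMKInt.taskKInt.1
  have hm : Measurable (fun q : (ℝ × ℝ) × ℝ => kk q.1.1 q.2 * w (q.2, q.1.2)) := by
    refine Measurable.mul (hk.comp (g := fun p : ℝ × ℝ => kk p.1 p.2)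
      (f := fun q : (ℝ × ℝ) × ℝ => (q.1.1, q.2)) ?_) (hw.comp ?_)
    · fun_prop
    · fun_prop
  exact (hm.stronglyMeasurable.integral_prod_right'
    (ν := (volume : Measure ℝ).restrict (Ioc (0 : ℝ) 1))).measurable

theorem meas_GG {κ : ℝ} {w : ℝ × ℝ → ℝ} (hw : Measurable w) : Measurable (GG κ w) := by
  unfold GG
  have h1 : Measurable (fun p : E 3 × ℝ =>
      Sop kk (fun ρ => w (ρ, p.2)) (‖p.1‖ * Real.exp (-κ * p.2))) := by
    have h2 : Measurable (fun p : E 3 × ℝ => (‖p.1‖ * Real.exp (-κ * p.2), p.2)) := by fun_prop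
    exact (meas_sop hw).comp h2
  refine Measurable.smul (Measurable.mul (by fun_prop) h1) measurable_fst

theorem bound_GG (hO : OuterU) {κ ε : ℝ} {w : ℝ × ℝ → ℝ} (hκ : 0 < κ) (hc : CoreSol AA κ ε w) :
    ∃ B, ∀ᵐ p ∂((volume : Measure (E 3 × ℝ)).restrict (univ ×ˢ Ioo (0 : ℝ) 1)),
      ‖GG κ w p‖ ≤ B := by
  obtain ⟨B, hB⟩ := hc.bdd
  obtain ⟨C, hC⟩ := hc.thb
  obtain ⟨C', hC'⟩ := hO B
  refine ⟨max |C| (|AA / 2| * |C'|), ?_⟩
  have hvol : (volume : Measure (E 3 × ℝ)).restrict (univ ×ˢ Ioo (0 : ℝ) 1) =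
      ((volume : Measure (E 3)).restrict univ).prod
        ((volume : Measure ℝ).restrict (Ioo (0 : ℝ) 1)) := by
    rw [Measure.prod_restrict]
    rfl
  rw [hvol]
  have h1 := (Measure.quasiMeasurePreserving_snd (μ := (volume : Measure (E 3)).restrict univ)
    (ν := (volume : Measure ℝ).restrict (Ioo (0 : ℝ) 1))).ae hC
  have h2 := (Measure.quasiMeasurePreserving_snd (μ := (volume : Measure (E 3)).restrict univ)
    (ν := (volume : Measure ℝ).restrict (Ioo (0 : ℝ) 1))).ae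
      (ae_restrict_mem measurableSet_Ioo)
  filter_upwards [h1, h2] with p hp1 hp2
  obtain ⟨x, t⟩ := p
  simp only at hp1 hp2
  have ht : 0 < t := hp2.1
  set r : ℝ := ‖x‖ * Real.exp (-κ * t) with hr
  have hr0 : 0 ≤ r := mul_nonneg (norm_nonneg _) (Real.exp_pos _).le
  have hx : ‖x‖ = r * Real.exp (κ * t) := by
    rw [hr, mul_assoc, ← Real.exp_add]
    simp
  have hGG : ‖GG κ w (x, t)‖ = |AA / 2| * Real.exp (-(5 / 2) * κ * t) *
      |Sop kk (fun ρ => w (ρ, t)) r| * r := by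
    show ‖(-(AA / 2) * Real.exp (-(7 / 2) * κ * t) *
      Sop kk (fun ρ => w (ρ, t)) (‖x‖ * Real.exp (-κ * t))) • x‖ = _
    rw [norm_smul, ← hr, Real.norm_eq_abs, abs_mul, abs_mul, abs_neg, Real.abs_exp, hx]
    have : Real.exp (-(7 / 2) * κ * t) * Real.exp (κ * t) = Real.exp (-(5 / 2) * κ * t) := by
      rw [← Real.exp_add]
      congr 1
      ring
    rw [← this]
    ring
  rw [hGG]
  have hkt : 0 < κ * t := mul_pos hκ ht
  rcases hr0.eq_or_lt with h0 | h0
  · rw [← h0, mul_zero]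
    exact le_max_of_le_left (abs_nonneg _)
  rcases le_or_gt r 1 with h3 | h3
  · have h4 := hp1 r ⟨h0, h3⟩
    have h5 : |Sth AA κ w (r, t)| = |AA / 2| * Real.exp (-2 * κ * t) *
        |Sop kk (fun ρ => w (ρ, t)) r| := by
      show |AA * (Real.exp (-2 * κ * t) / 2) * Sop kk (fun ρ => w (ρ, t)) r| = _
      rw [show AA * (Real.exp (-2 * κ * t) / 2) = AA / 2 * Real.exp (-2 * κ * t) by ring,
        abs_mul, abs_mul, Real.abs_exp]
    rw [h5] at h4
    refine le_max_of_le_left ((?_ : _ ≤ C).trans (le_abs_self C))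
    have h6 : Real.exp (-(5 / 2) * κ * t) ≤ Real.exp (-2 * κ * t) := by
      rw [Real.exp_le_exp]
      nlinarith
    calc |AA / 2| * Real.exp (-(5 / 2) * κ * t) * |Sop kk (fun ρ => w (ρ, t)) r| * r
        ≤ |AA / 2| * Real.exp (-(5 / 2) * κ * t) * |Sop kk (fun ρ => w (ρ, t)) r| * 1 := by
          refine mul_le_mul_of_nonneg_left h3 ?_
          positivity
      _ ≤ |AA / 2| * Real.exp (-2 * κ * t) * |Sop kk (fun ρ => w (ρ, t)) r| := by
          rw [mul_one]
          refine mul_le_mul_of_nonneg_right ?_ (abs_nonneg _)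
          exact mul_le_mul_of_nonneg_left h6 (abs_nonneg _)
      _ ≤ C := h4
  · have hP : Prof (fun ρ => w (ρ, t)) := by
      refine ⟨hc.meas.comp (by fun_prop), fun y => hc.nonneg _, ⟨B, fun y => hB _⟩, ?_⟩
      intro y hy
      exact hc.supp (y, t) hy
    have h4 := hC' _ hP (fun y => hB _) r h3.le
    refine le_max_of_le_right ?_
    have h6 : Real.exp (-(5 / 2) * κ * t) ≤ 1 := by
      rw [Real.exp_le_one_iff]
      nlinarith
    calc |AA / 2| * Real.exp (-(5 / 2) * κ * t) * |Sop kk (fun ρ => w (ρ, t)) r| * r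
        = |AA / 2| * (Real.exp (-(5 / 2) * κ * t) * (|Sop kk (fun ρ => w (ρ, t)) r| * r)) := by
          ring
      _ ≤ |AA / 2| * (1 * |C'|) := by
          refine mul_le_mul_of_nonneg_left ?_ (abs_nonneg _)
          exact mul_le_mul h6 (h4.trans (le_abs_self _)) (by positivity) zero_le_one
      _ = |AA / 2| * |C'| := by rw [one_mul]

end TB

theorem taskBounds : TaskBounds := by
  intro hO κ ε w hκ hc
  obtain ⟨B, hB⟩ := hc.bdd
  have hB0 : 0 ≤ B := (hc.nonneg (0, 0)).trans (hB (0, 0))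
  refine ⟨TB.meas_uu hc.meas, fun p => mul_nonneg (Real.exp_pos _).le (hc.nonneg _), ⟨B, ?_⟩,
    TB.meas_pot hc.meas, ⟨_, fun p hp => TB.pot_bound hκ hc.meas hc.nonneg hB hc.supp p hp⟩,
    TB.meas_GG hc.meas, TB.bound_GG hO hκ hc⟩
  intro p hp
  have he1 : Real.exp (-3 * κ * p.2) ≤ 1 := by
    rw [Real.exp_le_one_iff]
    nlinarith [mul_nonneg hκ.le hp]
  calc Real.exp (-3 * κ * p.2) * w (‖p.1‖ * Real.exp (-κ * p.2), p.2) ≤ 1 * B :=
        mul_le_mul he1 (hB _) (hc.nonneg _) zero_le_one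
    _ = B := one_mul B

end Pool.Agent.H329R3.NU
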