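import Pool.Agent.H329R3.NU.Final
import Pool.Agent.H747R3.NU.SeqS
import Pool.Agent.H630R3.NU.PertForm
import Pool.Agent.H99R3.NU.TaskOrth
import Pool.Agent.H700R3.NU.ThCont
import Pool.Agent.H329R3.NU.SelS
import Pool.Agent.H610R3.NU.WeakId
import Pool.Agent.H759R4.NU.TaskOuterU
import Pool.Agent.H884R4.Polar
import Pool.Agent.H329R3.NU.LimL2
import Pool.Agent.H636R3.NU.TaskStep
import Pool.Agent.H329R3.NU.TBounds
import Pool.Agent.H201R3.NU.Pert
import Pool.Agent.H941R3.NU.Gain
import Pool.Agent.H105R3.NU.Distinct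
import Pool.Agent.H191R3.NU.TaskWGrad
import Pool.Agent.H623R3.NU_PotForm

open MeasureTheory Set Filter Topology

namespace Pool.Agent.H329R3.NU

theorem step_all (hMix : MixPrim) : Step :=
  Pool.Agent.H636R3.NU.taskStep Pool.Agent.H700R3.NU.taskThCont taskSelS
    (Pool.Agent.H201R3.NUPert.taskPert Pool.Agent.H630R3.NU.taskPertForm hMix)
    (Pool.Agent.H941R3.NU.taskGain Pool.Agent.H630R3.NU.taskPertForm)

theorem seq_all (hMix : MixPrim) : SeqS :=
  Pool.Agent.H747R3.NU.taskSeqS (step_all hMix) Pool.Agent.H99R3.NU.taskOrth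

theorem core_all0 (hMix : MixPrim) (hCore : TaskCore) : Core :=
  hCore (seq_all hMix) taskLimL2 Pool.Agent.H610R3.NU.taskWeakId

theorem bounds_all : Bounds := taskBounds Pool.Agent.H759R4.NU.taskOuterU

theorem pot_all : PotForm := Pool.Agent.H623R3.NU.taskPotForm

theorem wgrad_all : WGrad := Pool.Agent.H191R3.NU.taskWGrad pot_all bounds_all

theorem weak3_all0 (h : TaskWeak3) : Weak3 := h taskPolar bounds_all

theorem distinct_all : Distinct := Pool.Agent.H105R3.NU.taskDistinct

end Pool.Agent.H329R3.NU
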