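import Pool.Agent.H329R3.NU.Stmts

open MeasureTheory Set Filter Topology
open scoped RealInnerProductSpace

namespace Pool.Agent.H329R3.NU

open Pool.Agent.H329R3.PM

theorem cc_pos : 0 < cc := by
  unfold cc
  have h1 : 0 < Real.Gamma (3 / 4 : ℝ) := Real.Gamma_pos_of_pos (by norm_num)
  have h2 : 0 < Real.Gamma (((3 : ℕ) : ℝ) / 2 - 3 / 4) := Real.Gamma_pos_of_pos (by norm_num)
  have h3 := Real.pi_pos
  positivity

theorem AA_pos : 0 < AA := by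
  unfold AA
  have := cc_pos
  have h3 := Real.pi_pos
  positivity

theorem locInt_of_bdd {F : Type*} [NormedAddCommGroup F]
    {f : E 3 × ℝ → F} {s : Set (E 3 × ℝ)} (hf : AEStronglyMeasurable f (volume.restrict s)) {B : ℝ}
    (hB : ∀ᵐ p ∂((volume : Measure (E 3 × ℝ)).restrict s), ‖f p‖ ≤ B) :
    LocallyIntegrableOn f s (volume : Measure (E 3 × ℝ)) := by
  apply locallyIntegrableOn_of_locallyIntegrable_restrict
  have hc : LocallyIntegrable (fun _ : E 3 × ℝ => |B|) ((volume : Measure (E 3 × ℝ)).restrict s) :=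
    locallyIntegrable_const _
  refine hc.mono hf ?_
  filter_upwards [hB] with p hp
  rw [Real.norm_eq_abs, abs_abs]
  exact hp.trans (le_abs_self _)

theorem ae_mem_strip : ∀ᵐ p ∂((volume : Measure (E 3 × ℝ)).restrict (univ ×ˢ Ioo (0 : ℝ) 1)),
    0 ≤ p.2 := by
  refine (ae_restrict_iff' (MeasurableSet.univ.prod measurableSet_Ioo)).2
    (Eventually.of_forall fun p hp => ?_)
  exact hp.2.1.le

theorem isWeak (hP : PotForm) (hB : Bounds) (hG : WGrad) (hW : Weak3) {κ ε : ℝ} {w : ℝ × ℝ → ℝ}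
    (hκ : 0 < κ) (hw : CoreSol AA κ ε w) :
    (∀ p, 0 ≤ uu κ w p) ∧
    LocallyIntegrableOn (uu κ w) ((univ : Set (E 3)) ×ˢ Ioo (0:ℝ) 1)
      (volume : Measure (E 3 × ℝ)) ∧
    (∀ᵐ p ∂((volume : Measure (E 3 × ℝ)).restrict
        ((univ : Set (E 3)) ×ˢ Ioo (0:ℝ) 1)),
      Integrable (fun y : E 3 => ‖p.1 - y‖ ^ (-(3 / 2) : ℝ) * uu κ w (y, p.2))
        (volume : Measure (E 3))) ∧
    LocallyIntegrableOn
      (fun p : E 3 × ℝ =>
        ∫ y : E 3, ‖p.1 - y‖ ^ (-(3 / 2) : ℝ) * uu κ w (y, p.2))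
      ((univ : Set (E 3)) ×ˢ Ioo (0:ℝ) 1)
      (volume : Measure (E 3 × ℝ)) ∧
    ∃ G : E 3 × ℝ → E 3,
      LocallyIntegrableOn G ((univ : Set (E 3)) ×ˢ Ioo (0:ℝ) 1)
        (volume : Measure (E 3 × ℝ)) ∧
      LocallyIntegrableOn (fun p => uu κ w p ^ ((3 / 2 : ℝ) - 1) • G p)
        ((univ : Set (E 3)) ×ˢ Ioo (0:ℝ) 1)
        (volume : Measure (E 3 × ℝ)) ∧
      (∀ ψ : E 3 × ℝ → ℝ, ContDiff ℝ 1 ψ → HasCompactSupport ψ →
        tsupport ψ ⊆ ((univ : Set (E 3)) ×ˢ Ioo (0:ℝ) 1) →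
        ∀ e : E 3,
          ∫ p : E 3 × ℝ, cc *
              (∫ y : E 3, ‖p.1 - y‖ ^ (-(3 / 2) : ℝ) * uu κ w (y, p.2)) *
              fderiv ℝ ψ p (e, (0:ℝ))
            = - ∫ p : E 3 × ℝ, inner ℝ (G p) e * ψ p) ∧
      (∀ φ : E 3 × ℝ → ℝ, ContDiff ℝ 1 φ → HasCompactSupport φ →
        tsupport φ ⊆ {p : E 3 × ℝ | p.2 < 1} →
        IntegrableOn (fun p => uu κ w p * fderiv ℝ φ p ((0 : E 3), (1:ℝ)))
          ((univ : Set (E 3)) ×ˢ Ioo (0:ℝ) 1)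
          (volume : Measure (E 3 × ℝ)) ∧
        IntegrableOn (fun p => uu κ w p ^ ((3 / 2 : ℝ) - 1) * fderiv ℝ φ p (G p, (0:ℝ)))
          ((univ : Set (E 3)) ×ˢ Ioo (0:ℝ) 1)
          (volume : Measure (E 3 × ℝ)) ∧
        (∫ p in ((univ : Set (E 3)) ×ˢ Ioo (0:ℝ) 1),
            uu κ w p * fderiv ℝ φ p ((0 : E 3), (1:ℝ)))
          - (∫ p in ((univ : Set (E 3)) ×ˢ Ioo (0:ℝ) 1),
            uu κ w p ^ ((3 / 2 : ℝ) - 1) * fderiv ℝ φ p (G p, (0:ℝ)))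
          + (∫ x : E 3, u0 x * φ (x, (0:ℝ))) = 0) := by
  obtain ⟨m1, n1, ⟨B1, b1⟩, m2, ⟨B2, b2⟩, m3, ⟨B3, b3⟩⟩ := hB κ ε w hκ hw
  refine ⟨n1, ?_, ?_, ?_, GG κ w, ?_, ?_, ?_, ?_⟩
  · refine locInt_of_bdd m1.aestronglyMeasurable (B := B1) ?_
    filter_upwards [ae_mem_strip] with p hp
    rw [Real.norm_eq_abs, abs_of_nonneg (n1 p)]
    exact b1 p hp
  · exact Eventually.of_forall fun p => (hP κ ε w hκ hw p.2).1 p.1
  · refine locInt_of_bdd m2.aestronglyMeasurable (B := B2) ?_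
    filter_upwards [ae_mem_strip] with p hp
    exact b2 p hp
  · exact locInt_of_bdd m3.aestronglyMeasurable b3
  · refine locInt_of_bdd (B := B1 ^ ((3 / 2 : ℝ) - 1) * B3) ?_ ?_
    · exact ((m1.pow_const _).smul m3).aestronglyMeasurable
    · filter_upwards [ae_mem_strip, b3] with p hp hq
      rw [norm_smul, Real.norm_eq_abs, abs_of_nonneg (Real.rpow_nonneg (n1 p) _)]
      have h1 : uu κ w p ^ ((3 / 2 : ℝ) - 1) ≤ B1 ^ ((3 / 2 : ℝ) - 1) :=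
        Real.rpow_le_rpow (n1 p) (b1 p hp) (by norm_num)
      exact mul_le_mul h1 hq (norm_nonneg _) ((Real.rpow_nonneg (n1 p) _).trans h1)
  · exact hG κ ε w hκ hw
  · exact hW κ ε w hκ hw

theorem u0_nonneg (x : E 3) : 0 ≤ u0 x := by
  unfold u0
  split_ifs <;> norm_num

theorem u0_eq : u0 = (Metric.closedBall (0 : E 3) 1).indicator (fun _ => (1 : ℝ)) := by
  funext x
  unfold u0
  by_cases h : ‖x‖ ≤ 1
  · rw [if_pos h, indicator_of_mem (by simpa using h)]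
  · rw [if_neg h, indicator_of_notMem (by simpa using h)]

theorem u0_memLp (p : ENNReal) : MemLp u0 p (volume : Measure (E 3)) := by
  rw [u0_eq]
  refine memLp_indicator_const p measurableSet_closedBall 1 (Or.inr ?_)
  exact measure_closedBall_lt_top.ne

theorem exists_pair (hC : Core) (hZ : Zero) (hD : Distinct) :
    ∃ (κ : ℝ) (w v : ℝ × ℝ → ℝ), 0 < κ ∧ CoreSol AA κ (κ / 100) w ∧
      CoreSol AA (κ / 2) (κ / 100) v ∧
      ¬ (uu κ w =ᵐ[(volume : Measure (E 3 × ℝ)).restrict (univ ×ˢ Ioo (0 : ℝ) 1)]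
        uu (κ / 2) v) := by
  have hA := AA_pos
  set κ : ℝ := min (1 / 10) (AA / 20) with hκ
  have h0 : 0 < κ := lt_min (by norm_num) (by positivity)
  have h1 : κ ≤ 1 / 10 := min_le_left _ _
  have h2 : κ ≤ AA / 20 := min_le_right _ _
  obtain ⟨w, hw⟩ := hC AA κ (κ / 100) hA h0 (by positivity) (hZ κ h0 h1 h2)
  obtain ⟨v, hv⟩ := hC AA (κ / 2) (κ / 100) hA (by positivity) (by positivity)
    (hZ (κ / 2) (by positivity) (by linarith) (by linarith))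
  exact ⟨κ, w, v, h0, hw, hv, hD κ w v h0 h1 hw hv⟩

end Pool.Agent.H329R3.NU
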