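import Pool.Agent.H329R3.PM.Stmts

open MeasureTheory Set Filter Topology
open scoped RealInnerProductSpace

namespace Pool.Agent.H329R3.NU

open Pool.Agent.H329R3.PM

/-! # S05448 (MP_948e80_an): non-uniqueness, N = 3, m = 3/2, s = 3/4, T = 1, u₀ = 1_{B_1}.
Variables `z = (y,t)`, `y = |x| e^{-κt} ∈ (0,1)`, `t ∈ (0,1)`. -/

noncomputable def dy (h : ℝ × ℝ → ℝ) (z : ℝ × ℝ) : ℝ := fderiv ℝ h z (1, 0)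
noncomputable def dt (h : ℝ × ℝ → ℝ) (z : ℝ × ℝ) : ℝ := fderiv ℝ h z (0, 1)

def Om : Set (ℝ × ℝ) := Ioo (0 : ℝ) 1 ×ˢ Ioo (0 : ℝ) 1
def Qc : Set (ℝ × ℝ) := Ioc (0 : ℝ) 1 ×ˢ Icc (0 : ℝ) 1

/-- density -/
noncomputable def W (h : ℝ × ℝ → ℝ) (z : ℝ × ℝ) : ℝ := 1 + dy h z / z.1 ^ 2

/-- relaxed flux -/
noncomputable def Fl (κ : ℝ) (h : ℝ × ℝ → ℝ) (z : ℝ × ℝ) : ℝ := κ * W h z - dt h z / z.1 ^ 3

/-- `A e^{-2κt}/2 · S[w(·,t)](y)` -/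
noncomputable def Sth (A κ : ℝ) (w : ℝ × ℝ → ℝ) (z : ℝ × ℝ) : ℝ :=
  A * (Real.exp (-2 * κ * z.2) / 2) * Sop kk (fun ρ => w (ρ, z.2)) z.1

noncomputable def Th (A κ : ℝ) (h : ℝ × ℝ → ℝ) (z : ℝ × ℝ) : ℝ := Sth A κ (W h) z

/-- velocity -/
noncomputable def Nu (κ : ℝ) (h : ℝ × ℝ → ℝ) (z : ℝ × ℝ) : ℝ := Fl κ h z / W h z

/-- strict subsolutions -/
structure St (A κ : ℝ) (h : ℝ × ℝ → ℝ) : Prop where
  smooth : ContDiff ℝ 2 h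
  cpt : HasCompactSupport h
  supp : tsupport h ⊆ Om
  strict : ∃ δ > 0, ∀ z ∈ Qc, δ ≤ W h z ∧ δ ≤ Fl κ h z ∧ δ ≤ Th A κ h z ∧
    Fl κ h z ^ 2 ≤ (1 - δ) * (Th A κ h z ^ 2 * W h z)

/-- maximal amplitude -/
noncomputable def al (A κ : ℝ) (h : ℝ × ℝ → ℝ) (z : ℝ × ℝ) : ℝ :=
  (1 - Fl κ h z ^ 2 / (Th A κ h z ^ 2 * W h z)) / 2

/-- the perturbed function -/
noncomputable def pert (a h : ℝ × ℝ → ℝ) (n : ℕ) (z : ℝ × ℝ) : ℝ :=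
  h z + a z * Real.sin (n * (z.1 ^ 3 / 3 + h z)) / n

noncomputable def J (h : ℝ × ℝ → ℝ) : ℝ := ∫ z in Om, W h z ^ 2 * z.1 ^ 2

noncomputable def D (A κ : ℝ) (h : ℝ × ℝ → ℝ) : ℝ :=
  ∫ z in Om, (W h z - (Fl κ h z / Th A κ h z) ^ 2) ^ 2 * z.1 ^ 2

/-- admissible amplitudes -/
structure Amp (A κ : ℝ) (h a : ℝ × ℝ → ℝ) : Prop where
  smooth : ContDiff ℝ 2 a
  cpt : HasCompactSupport a
  supp : tsupport a ⊆ Om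
  nonneg : ∀ z, 0 ≤ a z
  le : ∀ z ∈ Om, a z ≤ al A κ h z

/-! ## statements -/

/-- kernel `kk` against bounded functions with small primitive -/
def MixPrim : Prop :=
  ∀ a ∈ Ioo (0 : ℝ) 1, ∀ δ > 0, ∀ B > 0, ∃ η > 0, ∀ g : ℝ → ℝ, Measurable g → (∀ y, |g y| ≤ B) →
    (∀ y, y ∉ Icc a 1 → g y = 0) → (∀ y ∈ Icc a 1, |∫ ρ in Ioc a y, g ρ| ≤ η) →
    ∀ r ∈ Ioc (0 : ℝ) 1, |Sop kk g r| ≤ δ

/-- continuity of the nonlocal term -/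
def ThCont : Prop :=
  ∀ (A κ : ℝ) (h : ℝ × ℝ → ℝ), ContDiff ℝ 2 h → HasCompactSupport h → tsupport h ⊆ Om →
    ContinuousOn (Th A κ h) Om

/-- smooth approximation from below -/
def SelS : Prop :=
  ∀ (α : ℝ × ℝ → ℝ), ContinuousOn α Om → (∀ z ∈ Om, 0 ≤ α z) → ∀ ε > 0, ∀ K : Set (ℝ × ℝ),
    IsCompact K → K ⊆ Om → ∃ a : ℝ × ℝ → ℝ, ContDiff ℝ 2 a ∧ HasCompactSupport a ∧
      tsupport a ⊆ Om ∧ (∀ z, 0 ≤ a z) ∧ (∀ z ∈ Om, a z ≤ α z) ∧ ∀ z ∈ K, α z - ε ≤ a z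

/-- closeness of two states -/
def Near (A κ ε : ℝ) (h h' : ℝ × ℝ → ℝ) : Prop :=
  (∀ z, |h' z - h z| ≤ ε) ∧ (∀ z ∈ Qc, |Th A κ h' z - Th A κ h z| ≤ ε) ∧
    ∀ z ∈ Qc, |Nu κ h' z - Nu κ h z| ≤ ε

/-- formulas for the perturbed density and flux: errors `O(1/n)` -/
def PertForm : Prop :=
  ∀ (κ : ℝ) (h a : ℝ × ℝ → ℝ), ContDiff ℝ 2 h → HasCompactSupport h → tsupport h ⊆ Om →
    ContDiff ℝ 2 a → HasCompactSupport a → tsupport a ⊆ Om →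
    (∀ n : ℕ, 0 < n → ContDiff ℝ 2 (pert a h n) ∧ HasCompactSupport (pert a h n) ∧
      tsupport (pert a h n) ⊆ Om) ∧
    ∃ C : ℝ, 0 ≤ C ∧ ∀ n : ℕ, 0 < n → (∀ z, |pert a h n z - h z| ≤ C / n) ∧
      ∀ z ∈ Qc,
        |W (pert a h n) z - (1 + a z * Real.cos (n * (z.1 ^ 3 / 3 + h z))) * W h z| ≤ C / n ∧
        |Fl κ (pert a h n) z - (1 + a z * Real.cos (n * (z.1 ^ 3 / 3 + h z))) * Fl κ h z| ≤ C / n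

/-- the perturbed function is a state, close to `h` -/
def Pert : Prop :=
  ∀ (A κ : ℝ) (h a : ℝ × ℝ → ℝ), 0 < A → 0 < κ → St A κ h → Amp A κ h a → ∀ ε > 0,
    ∃ n₀ : ℕ, ∀ n : ℕ, n₀ ≤ n → 0 < n → St A κ (pert a h n) ∧ Near A κ ε h (pert a h n)

/-- energy gain -/
def Gain : Prop :=
  ∀ (A κ : ℝ) (h a : ℝ × ℝ → ℝ), 0 < A → 0 < κ → St A κ h → Amp A κ h a → ∀ ε > 0,
    ∃ n₀ : ℕ, ∀ n : ℕ, n₀ ≤ n → 0 < n →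
      J h + (∫ z in Om, a z ^ 2 * W h z ^ 2 * z.1 ^ 2) / 2 - ε ≤ J (pert a h n)

/-- the step of the iteration -/
def Step : Prop :=
  ∀ (A κ : ℝ) (h : ℝ × ℝ → ℝ), 0 < A → 0 < κ → St A κ h → ∀ ε > 0,
    ∃ h', St A κ h' ∧ Near A κ ε h h' ∧ J h + D A κ h / 8 - ε ≤ J h'

/-- almost orthogonality -/
def Orth : Prop :=
  ∀ (A κ : ℝ) (h : ℝ × ℝ → ℝ), St A κ h → ∃ L : ℝ, 0 ≤ L ∧ ∀ h' : ℝ × ℝ → ℝ, St A κ h' →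
    ∀ η : ℝ, 0 ≤ η → (∀ z, |h' z - h z| ≤ η) →
      |∫ z in Om, (W h' z - W h z) * W h z * z.1 ^ 2| ≤ L * η

/-- abstract `L²` limit lemma -/
def LimL2 : Prop :=
  ∀ (μ : Measure (ℝ × ℝ)) [IsFiniteMeasure μ] (w : ℕ → ℝ × ℝ → ℝ) (B : ℝ) (η : ℕ → ℝ),
    (∀ k, Measurable (w k)) → (∀ k, ∀ᵐ z ∂μ, |w k z| ≤ B) → Tendsto η atTop (𝓝 0) →
    (∀ k l, k ≤ l → -η k ≤ ∫ z, (w l z - w k z) * w k z ∂μ) →
    (∃ c : ℝ, Tendsto (fun k => ∫ z, w k z ^ 2 ∂μ) atTop (𝓝 c)) ∧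
    ∃ (φ : ℕ → ℕ) (v : ℝ × ℝ → ℝ), StrictMono φ ∧ Measurable v ∧
      ∀ᵐ z ∂μ, Tendsto (fun j => w (φ j) z) atTop (𝓝 (v z))

/-- test functions in the variables `(y,t)` -/
structure Tst (Φ : ℝ × ℝ → ℝ) : Prop where
  smooth : ContDiff ℝ 1 Φ
  cpt : HasCompactSupport Φ
  supp : tsupport Φ ⊆ {z | z.2 < 1}

/-- weak identity for smooth states -/
def WeakId : Prop :=
  ∀ (κ : ℝ) (h : ℝ × ℝ → ℝ), ContDiff ℝ 2 h → HasCompactSupport h → tsupport h ⊆ Om →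
    ∀ Φ, Tst Φ →
    (∫ z in Om, (W h z * z.1 ^ 2 * dt Φ z + (Fl κ h z - κ * W h z) * z.1 ^ 3 * dy Φ z)) +
      ∫ y in Ioc (0 : ℝ) 1, y ^ 2 * Φ (y, 0) = 0

/-- limit solutions in the variables `(y,t)` -/
structure CoreSol (A κ ε : ℝ) (w : ℝ × ℝ → ℝ) : Prop where
  meas : Measurable w
  nonneg : ∀ z, 0 ≤ w z
  bdd : ∃ B, ∀ z, w z ≤ B
  supp : ∀ z : ℝ × ℝ, z.1 ∉ Ioc (0 : ℝ) 1 → w z = 0
  thb : ∃ C, ∀ᵐ t ∂(volume.restrict (Ioo (0 : ℝ) 1)), ∀ y ∈ Ioc (0 : ℝ) 1, |Sth A κ w (y, t)| ≤ C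
  close : ∀ᵐ t ∂(volume.restrict (Ioo (0 : ℝ) 1)), ∀ y ∈ Ioc (0 : ℝ) 1,
    |∫ ρ in Ioc (0 : ℝ) y, (w (ρ, t) - 1) * ρ ^ 2| ≤ ε
  weak : ∀ Φ, Tst Φ →
    (∫ z in Om, (w z * z.1 ^ 2 * dt Φ z +
      (Sth A κ w z * √(w z) - κ * w z) * z.1 ^ 3 * dy Φ z)) +
      ∫ y in Ioc (0 : ℝ) 1, y ^ 2 * Φ (y, 0) = 0

/-- the iteration gives limit solutions, starting from the state `h = 0` -/
def Core : Prop :=
  ∀ A κ ε : ℝ, 0 < A → 0 < κ → 0 < ε → St A κ (fun _ => 0) → ∃ w, CoreSol A κ ε w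

/-- the constant of the Riesz potential in the frozen statement, `N = 3`, `s = 3/4` -/
noncomputable def cc : ℝ :=
  Real.Gamma (((3 : ℕ) : ℝ) / 2 - 3 / 4) /
    ((4 : ℝ) ^ (3 / 4 : ℝ) * Real.pi ^ (((3 : ℕ) : ℝ) / 2) * Real.Gamma (3 / 4))

noncomputable def AA : ℝ := 8 * Real.pi * cc

/-- `h = 0` is a state for small `κ` -/
def Zero : Prop := ∀ κ : ℝ, 0 < κ → κ ≤ 1 / 10 → κ ≤ AA / 20 → St AA κ (fun _ => 0)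

/-- the solution in the original variables -/
noncomputable def uu (κ : ℝ) (w : ℝ × ℝ → ℝ) (p : E 3 × ℝ) : ℝ :=
  Real.exp (-3 * κ * p.2) * w (‖p.1‖ * Real.exp (-κ * p.2), p.2)

/-- its pressure gradient -/
noncomputable def GG (κ : ℝ) (w : ℝ × ℝ → ℝ) (p : E 3 × ℝ) : E 3 :=
  (-(AA / 2) * Real.exp (-(7 / 2) * κ * p.2) *
    Sop kk (fun ρ => w (ρ, p.2)) (‖p.1‖ * Real.exp (-κ * p.2))) • p.1

/-- initial datum -/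
noncomputable def u0 (x : E 3) : ℝ := if ‖x‖ ≤ 1 then 1 else 0

/-- the kernel integral for each time -/
def PotForm : Prop :=
  ∀ κ ε (w : ℝ × ℝ → ℝ), 0 < κ → CoreSol AA κ ε w → ∀ t : ℝ,
    (∀ x : E 3, Integrable (fun y : E 3 => ‖x - y‖ ^ (-(3 / 2) : ℝ) * uu κ w (y, t))) ∧
    ∀ x : E 3, HasGradientAt
      (fun x : E 3 => cc * ∫ y : E 3, ‖x - y‖ ^ (-(3 / 2) : ℝ) * uu κ w (y, t)) (GG κ w (x, t)) x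

/-- uniform bound for `r ≥ 1` -/
def OuterU : Prop :=
  ∀ B : ℝ, ∃ C, ∀ w : ℝ → ℝ, Prof w → (∀ y, w y ≤ B) → ∀ r, 1 ≤ r → |Sop kk w r| * r ≤ C

/-- measurability and bounds of `uu`, the kernel integral and `GG` on `ℝ³ × (0,1)` -/
def Bounds : Prop :=
  ∀ κ ε (w : ℝ × ℝ → ℝ), 0 < κ → CoreSol AA κ ε w →
    Measurable (uu κ w) ∧ (∀ p, 0 ≤ uu κ w p) ∧
    (∃ B, ∀ p : E 3 × ℝ, 0 ≤ p.2 → uu κ w p ≤ B) ∧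
    Measurable (fun p : E 3 × ℝ => ∫ y : E 3, ‖p.1 - y‖ ^ (-(3 / 2) : ℝ) * uu κ w (y, p.2)) ∧
    (∃ B, ∀ p : E 3 × ℝ, 0 ≤ p.2 →
      |∫ y : E 3, ‖p.1 - y‖ ^ (-(3 / 2) : ℝ) * uu κ w (y, p.2)| ≤ B) ∧
    Measurable (GG κ w) ∧
    ∃ B, ∀ᵐ p ∂((volume : Measure (E 3 × ℝ)).restrict (univ ×ˢ Ioo (0 : ℝ) 1)), ‖GG κ w p‖ ≤ B

/-- space-time weak gradient -/
def WGrad : Prop :=
  ∀ κ ε (w : ℝ × ℝ → ℝ), 0 < κ → CoreSol AA κ ε w →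
    ∀ ψ : E 3 × ℝ → ℝ, ContDiff ℝ 1 ψ → HasCompactSupport ψ →
      tsupport ψ ⊆ univ ×ˢ Ioo (0 : ℝ) 1 → ∀ e : E 3,
      ∫ p : E 3 × ℝ, cc * (∫ y : E 3, ‖p.1 - y‖ ^ (-(3 / 2) : ℝ) * uu κ w (y, p.2)) *
        fderiv ℝ ψ p (e, (0 : ℝ)) = - ∫ p : E 3 × ℝ, ⟪GG κ w p, e⟫ * ψ p

/-- polar coordinates in `ℝ³`: integration against a finite measure of directions -/
def Polar : Prop :=
  ∃ σ : Measure (E 3), IsFiniteMeasure σ ∧ (∀ᵐ ω ∂σ, ‖ω‖ = 1) ∧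
    ∀ f : E 3 → ℝ, Integrable f →
      ∫ x, f x = ∫ ω, (∫ y in Ioi (0 : ℝ), y ^ 2 * f (y • ω)) ∂σ

/-- the weak identity in the original variables -/
def Weak3 : Prop :=
  ∀ κ ε (w : ℝ × ℝ → ℝ), 0 < κ → CoreSol AA κ ε w →
    ∀ φ : E 3 × ℝ → ℝ, ContDiff ℝ 1 φ → HasCompactSupport φ → tsupport φ ⊆ {p | p.2 < 1} →
    IntegrableOn (fun p => uu κ w p * fderiv ℝ φ p ((0 : E 3), (1 : ℝ)))
      (univ ×ˢ Ioo (0 : ℝ) 1) ∧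
    IntegrableOn (fun p => uu κ w p ^ ((3 / 2 : ℝ) - 1) * fderiv ℝ φ p (GG κ w p, (0 : ℝ)))
      (univ ×ˢ Ioo (0 : ℝ) 1) ∧
    (∫ p in (univ ×ˢ Ioo (0 : ℝ) 1 : Set (E 3 × ℝ)), uu κ w p * fderiv ℝ φ p ((0 : E 3), (1 : ℝ)))
      - (∫ p in (univ ×ˢ Ioo (0 : ℝ) 1 : Set (E 3 × ℝ)),
          uu κ w p ^ ((3 / 2 : ℝ) - 1) * fderiv ℝ φ p (GG κ w p, (0 : ℝ)))
      + (∫ x : E 3, u0 x * φ (x, (0 : ℝ))) = 0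

/-- solutions for different `κ` differ -/
def Distinct : Prop :=
  ∀ κ (w v : ℝ × ℝ → ℝ), 0 < κ → κ ≤ 1 / 10 → CoreSol AA κ (κ / 100) w →
    CoreSol AA (κ / 2) (κ / 100) v →
    ¬ (uu κ w =ᵐ[(volume : Measure (E 3 × ℝ)).restrict (univ ×ˢ Ioo (0 : ℝ) 1)] uu (κ / 2) v)

/-- the sequence of states -/
def SeqS : Prop :=
  ∀ A κ ε : ℝ, 0 < A → 0 < κ → 0 < ε → St A κ (fun _ => 0) →
    ∃ h : ℕ → ℝ × ℝ → ℝ, h 0 = (fun _ => 0) ∧ (∀ k, St A κ (h k)) ∧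
      (∀ k, Near A κ (ε * (1 / 2) ^ (k + 1)) (h k) (h (k + 1))) ∧
      (∀ k, J (h k) + D A κ (h k) / 8 - (1 / 2) ^ k ≤ J (h (k + 1))) ∧
      ∀ k l, k ≤ l →
        -(1 / 2) ^ k ≤ ∫ z in Om, (W (h l) z - W (h k) z) * W (h k) z * z.1 ^ 2

/-! ## tasks -/

def TaskMixPrim : Prop := MixPrim
def TaskThCont : Prop := ThCont
def TaskSelS : Prop := SelS
def TaskPertForm : Prop := PertForm
def TaskPert : Prop := PertForm → MixPrim → Pert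
def TaskGain : Prop := PertForm → Gain
def TaskStep : Prop := ThCont → SelS → Pert → Gain → Step
def TaskOrth : Prop := Orth
def TaskLimL2 : Prop := LimL2
def TaskWeakId : Prop := WeakId
def TaskSeqS : Prop := Step → Orth → SeqS
def TaskCore : Prop := SeqS → LimL2 → WeakId → Core
def TaskZero : Prop := Zero
def TaskPotForm : Prop := PotForm
def TaskOuterU : Prop := OuterU
def TaskBounds : Prop := OuterU → Bounds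
def TaskWGrad : Prop := PotForm → Bounds → WGrad
def TaskPolar : Prop := Polar
def TaskWeak3 : Prop := Polar → Bounds → Weak3
def TaskDistinct : Prop := Distinct

end Pool.Agent.H329R3.NU
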